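import Pool.Agent.V11202.TN.Betti
import Pool.Agent.V11202.TN.Two
import Pool.Agent.V11202.TN.Chart

/-!
# The two-number is not always the total mod 2 Betti number

Let `M` be the set of unit decomposable tensors `x ⊗ y ⊗ z` in `ℝ⁴ ⊗ ℝ⁴ ⊗ ℝ⁴ = ℝ⁶⁴`
(`x, y, z` unit vectors). It is a connected compact Riemannian symmetric space, isometric to
`(S³ × S³ × S³) / {ε ∈ {±1}³ : ε₁ε₂ε₃ = 1}`, that is to the compact Lie group
`Sp(1)³ / {ε ∈ {±1}³ : ε₁ε₂ε₃ = 1}` with a bi-invariant metric. Its two-number is `8`, and its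
total mod 2 Betti number is at least `10`.
-/

namespace Pool.Agent.Results.MP_efd99a_gt.TwoNumber

open V11202.TN

/-- There is a connected compact Riemannian symmetric space `M`, embedded as a submanifold of a
Euclidean space whose geodesic symmetries are restrictions of linear isometries `s p`, such that
the maximal cardinality of an antipodal subset of `M` is `8` while the total mod 2 Betti number
of `M` is at least `10`. -/
theorem result :
    ∃ (M : Set (EuclideanSpace ℝ (Fin 4 × Fin 4 × Fin 4)))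
      (s : EuclideanSpace ℝ (Fin 4 × Fin 4 × Fin 4) →
        EuclideanSpace ℝ (Fin 4 × Fin 4 × Fin 4) ≃ₗᵢ[ℝ]
          EuclideanSpace ℝ (Fin 4 × Fin 4 × Fin 4)),
      IsCompact M ∧ IsConnected M ∧ IsSubmfd 9 M ∧ (∀ p ∈ M, IsGeodSymm M p (s p)) ∧
      IsGreatest {k : ℕ∞ | ∃ A ⊆ M, Antipodal s A ∧ A.encard = k} 8 ∧
      10 ≤ totalBetti M :=
  ⟨Seg, sy, isCompact_Seg, isConnected_Seg, isSubmfd_Seg, isGeodSymm_sy, isGreatest_eight, ten_le⟩

end Pool.Agent.Results.MP_efd99a_gt.TwoNumber
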